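import Mathlib

namespace Pool.Agent.Results.MP_67c61c_pr.Lazy

open Finset Matrix

variable {d : ℕ}

/-- Time reversal of `A` with respect to `p`. -/
noncomputable def rev (p : Fin d → ℝ) (A : Matrix (Fin d) (Fin d) ℝ) : Matrix (Fin d) (Fin d) ℝ :=
  fun i j => p j * A j i / p i

/-- Multiplicative reversiblization. -/
noncomputable def dag (p : Fin d → ℝ) (A : Matrix (Fin d) (Fin d) ℝ) : Matrix (Fin d) (Fin d) ℝ :=
  rev p A * A

/-- Second largest eigenvalue: the largest eigenvalue with an eigenvector orthogonal to the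
constants in `L^2(p)`. -/
noncomputable def lam2 (p : Fin d → ℝ) (A : Matrix (Fin d) (Fin d) ℝ) : ℝ :=
  sSup {μ : ℝ | ∃ f : Fin d → ℝ, f ≠ 0 ∧ ∑ i, p i * f i = 0 ∧ A *ᵥ f = μ • f}

/-- Pseudo spectral gap. -/
noncomputable def gps (p : Fin d → ℝ) (M : Matrix (Fin d) (Fin d) ℝ) : ℝ :=
  ⨆ k : ℕ, (1 - lam2 p (dag p (M ^ (k + 1)))) / ((k + 1 : ℕ) : ℝ)

/-- `M` is row-stochastic and `p` is a positive stationary probability vector. -/
structure Chain (p : Fin d → ℝ) (M : Matrix (Fin d) (Fin d) ℝ) : Prop where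
  nonneg : ∀ i j, 0 ≤ M i j
  rows : ∀ i, ∑ j, M i j = 1
  pos : ∀ i, 0 < p i
  total : ∑ i, p i = 1
  stat : ∀ j, ∑ i, p i * M i j = p j

def B (p f g : Fin d → ℝ) : ℝ := ∑ i, p i * f i * g i

lemma B_nonneg {p : Fin d → ℝ} (hp : ∀ i, 0 < p i) (f : Fin d → ℝ) : 0 ≤ B p f f :=
  Finset.sum_nonneg fun i _ => by nlinarith [mul_nonneg (hp i).le (mul_self_nonneg (f i))]

lemma B_pos {p : Fin d → ℝ} (hp : ∀ i, 0 < p i) {f : Fin d → ℝ} (hf : f ≠ 0) : 0 < B p f f := by
  obtain ⟨i, hi⟩ := Function.ne_iff.mp hf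
  refine Finset.sum_pos' (fun i _ => ?_) ⟨i, Finset.mem_univ _, ?_⟩
  · nlinarith [mul_nonneg (hp i).le (mul_self_nonneg (f i))]
  · nlinarith [mul_pos (hp i) (mul_self_pos.mpr hi)]

lemma B_smul (p f : Fin d → ℝ) (c : ℝ) : B p (c • f) (c • f) = c ^ 2 * B p f f := by
  unfold B
  rw [Finset.mul_sum]
  refine Finset.sum_congr rfl fun i _ => ?_
  simp only [Pi.smul_apply, smul_eq_mul]
  ring

lemma B_expand (p f h : Fin d → ℝ) (t : ℝ) :
    B p (f + t • h) (f + t • h) = B p f f + 2 * t * B p f h + t ^ 2 * B p h h := by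
  unfold B
  rw [Finset.mul_sum, Finset.mul_sum, ← Finset.sum_add_distrib, ← Finset.sum_add_distrib]
  refine Finset.sum_congr rfl fun i _ => ?_
  simp only [Pi.add_apply, Pi.smul_apply, smul_eq_mul]
  ring

lemma B_adj {p : Fin d → ℝ} (hp : ∀ i, 0 < p i) (A : Matrix (Fin d) (Fin d) ℝ) (f h : Fin d → ℝ) :
    B p (dag p A *ᵥ f) h = B p (A *ᵥ f) (A *ᵥ h) := by
  unfold dag
  rw [← mulVec_mulVec]
  generalize A *ᵥ f = g
  unfold B
  simp only [mulVec, dotProduct, rev, Finset.mul_sum, Finset.sum_mul]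
  rw [Finset.sum_comm]
  refine Finset.sum_congr rfl fun i _ => Finset.sum_congr rfl fun j _ => ?_
  have := (hp j).ne'
  field_simp

lemma Chain.mean {p : Fin d → ℝ} {M : Matrix (Fin d) (Fin d) ℝ} (h : Chain p M) (f : Fin d → ℝ) :
    ∑ i, p i * (M *ᵥ f) i = ∑ i, p i * f i := by
  simp only [mulVec, dotProduct, Finset.mul_sum]
  rw [Finset.sum_comm]
  refine Finset.sum_congr rfl fun j _ => ?_
  rw [← h.stat j, Finset.sum_mul]
  exact Finset.sum_congr rfl fun i _ => by ring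

lemma Chain.one {p : Fin d → ℝ} {M : Matrix (Fin d) (Fin d) ℝ} (h : Chain p M) :
    M *ᵥ (fun _ => 1) = fun _ => 1 := by
  funext i
  simp [mulVec, dotProduct, h.rows i]

lemma Chain.contr {p : Fin d → ℝ} {M : Matrix (Fin d) (Fin d) ℝ} (h : Chain p M) (f : Fin d → ℝ) :
    B p (M *ᵥ f) (M *ᵥ f) ≤ B p f f := by
  have h1 : ∀ i, (M *ᵥ f) i * (M *ᵥ f) i ≤ (M *ᵥ fun j => f j * f j) i := by
    intro i
    have h0 : 0 ≤ ∑ j, M i j * (f j - (M *ᵥ f) i) ^ 2 :=
      Finset.sum_nonneg fun j _ => mul_nonneg (h.nonneg i j) (sq_nonneg _)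
    have h2 : ∑ j, M i j * (f j - (M *ᵥ f) i) ^ 2 = (M *ᵥ fun j => f j * f j) i
        - 2 * (M *ᵥ f) i * (∑ j, M i j * f j) + (M *ᵥ f) i ^ 2 * ∑ j, M i j := by
      generalize (M *ᵥ f) i = m
      simp only [mulVec, dotProduct, Finset.mul_sum]
      rw [← Finset.sum_sub_distrib, ← Finset.sum_add_distrib]
      exact Finset.sum_congr rfl fun j _ => by ring
    have h3 : ∑ j, M i j * f j = (M *ᵥ f) i := rfl
    rw [h2, h3, h.rows i] at h0
    nlinarith
  calc B p (M *ᵥ f) (M *ᵥ f) ≤ ∑ i, p i * (M *ᵥ fun j => f j * f j) i := by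
        refine Finset.sum_le_sum fun i _ => ?_
        rw [mul_assoc]
        exact mul_le_mul_of_nonneg_left (h1 i) (h.pos i).le
    _ = B p f f := by
        rw [h.mean]
        exact Finset.sum_congr rfl fun i _ => by ring

lemma Chain.mul {p : Fin d → ℝ} {M N : Matrix (Fin d) (Fin d) ℝ} (h : Chain p M) (h' : Chain p N) :
    Chain p (M * N) := by
  refine ⟨fun i j => ?_, fun i => ?_, h.pos, h.total, fun j => ?_⟩
  · rw [Matrix.mul_apply]
    exact Finset.sum_nonneg fun k _ => mul_nonneg (h.nonneg i k) (h'.nonneg k j)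
  · simp only [Matrix.mul_apply]
    rw [Finset.sum_comm]
    simp only [← Finset.mul_sum, h'.rows, mul_one, h.rows]
  · simp only [Matrix.mul_apply, Finset.mul_sum]
    rw [Finset.sum_comm, ← h'.stat j]
    refine Finset.sum_congr rfl fun k _ => ?_
    rw [← h.stat k, Finset.sum_mul]
    exact Finset.sum_congr rfl fun i _ => by ring

lemma Chain.pow {p : Fin d → ℝ} {M : Matrix (Fin d) (Fin d) ℝ} (h : Chain p M) (k : ℕ) :
    Chain p (M ^ k) := by
  induction k with
  | zero =>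
    refine ⟨fun i j => ?_, fun i => ?_, h.pos, h.total, fun j => ?_⟩
    · rw [pow_zero, one_apply]
      split_ifs <;> norm_num
    · simp [one_apply]
    · simp [one_apply]
  | succ k ih =>
    rw [pow_succ]
    exact ih.mul h

lemma Chain.lazy {p : Fin d → ℝ} {M : Matrix (Fin d) (Fin d) ℝ} (h : Chain p M) {α : ℝ}
    (h0 : 0 < α) (h1 : α < 1) : Chain p (α • (1 : Matrix (Fin d) (Fin d) ℝ) + (1 - α) • M) := by
  have o := h.pow 0
  rw [pow_zero] at o
  refine ⟨fun i j => ?_, fun i => ?_, h.pos, h.total, fun j => ?_⟩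
  · simp only [Matrix.add_apply, Matrix.smul_apply, smul_eq_mul]
    exact add_nonneg (mul_nonneg h0.le (o.nonneg i j)) (mul_nonneg (by linarith) (h.nonneg i j))
  · simp only [Matrix.add_apply, Matrix.smul_apply, smul_eq_mul, Finset.sum_add_distrib, ← Finset.mul_sum,
      o.rows, h.rows]
    ring
  · simp only [Matrix.add_apply, Matrix.smul_apply, smul_eq_mul, mul_add, Finset.sum_add_distrib]
    have e1 : ∑ i, p i * (α * (1 : Matrix (Fin d) (Fin d) ℝ) i j) = α * p j := by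
      rw [← o.stat j, Finset.mul_sum]
      exact Finset.sum_congr rfl fun i _ => by ring
    have e2 : ∑ i, p i * ((1 - α) * M i j) = (1 - α) * p j := by
      rw [← h.stat j, Finset.mul_sum]
      exact Finset.sum_congr rfl fun i _ => by ring
    rw [e1, e2]
    ring

lemma eig_le {p : Fin d → ℝ} (hp : ∀ i, 0 < p i) (A : Matrix (Fin d) (Fin d) ℝ) (c : ℝ)
    (hc : ∀ f : Fin d → ℝ, ∑ i, p i * f i = 0 → B p (A *ᵥ f) (A *ᵥ f) ≤ c * B p f f) :
    ∀ μ ∈ {μ : ℝ | ∃ f : Fin d → ℝ, f ≠ 0 ∧ ∑ i, p i * f i = 0 ∧ dag p A *ᵥ f = μ • f}, μ ≤ c := by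
  rintro μ ⟨f, hf0, hf1, hf2⟩
  have h1 := B_adj hp A f f
  have h2 : B p (μ • f) f = μ * B p f f := by
    unfold B
    rw [Finset.mul_sum]
    exact Finset.sum_congr rfl fun i _ => by
      simp only [Pi.smul_apply, smul_eq_mul]
      ring
  rw [hf2, h2] at h1
  have h3 := hc f hf1
  rw [← h1] at h3
  exact le_of_mul_le_mul_right h3 (B_pos hp hf0)

lemma top_eig (hd : 2 ≤ d) {p : Fin d → ℝ} {A : Matrix (Fin d) (Fin d) ℝ} (h : Chain p A) :
    ∃ c, 0 ≤ c ∧
      c ∈ {μ : ℝ | ∃ f : Fin d → ℝ, f ≠ 0 ∧ ∑ i, p i * f i = 0 ∧ dag p A *ᵥ f = μ • f} ∧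
      ∀ f : Fin d → ℝ, ∑ i, p i * f i = 0 → B p (A *ᵥ f) (A *ᵥ f) ≤ c * B p f f := by
  have hp := h.pos
  let K : Set (Fin d → ℝ) := {f | ∑ i, p i * f i = 0 ∧ B p f f = 1}
  have hnorm : ∀ f : Fin d → ℝ, f ≠ 0 → ∑ i, p i * f i = 0 → (√(B p f f))⁻¹ • f ∈ K := by
    intro f hf0 hf1
    have hB := B_pos hp hf0
    refine ⟨?_, ?_⟩
    · have : ∑ i, p i * ((√(B p f f))⁻¹ • f) i = (√(B p f f))⁻¹ * ∑ i, p i * f i := by
        rw [Finset.mul_sum]
        exact Finset.sum_congr rfl fun i _ => by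
          simp only [Pi.smul_apply, smul_eq_mul]
          ring
      rw [this, hf1, mul_zero]
    · rw [B_smul, inv_pow, Real.sq_sqrt hB.le, inv_mul_cancel₀ hB.ne']
  have hne : K.Nonempty := by
    let a : Fin d := ⟨0, by omega⟩
    let b : Fin d := ⟨1, by omega⟩
    have hab : a ≠ b := by simp [a, b]
    refine ⟨_, hnorm (fun i => (if i = a then p b else 0) - (if i = b then p a else 0)) ?_ ?_⟩
    · intro h0
      have := congrFun h0 a
      simp only [if_true, if_neg hab, Pi.zero_apply, sub_zero] at this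
      exact (hp b).ne' this
    · simp only [mul_sub, Finset.sum_sub_distrib, mul_ite, mul_zero, Finset.sum_ite_eq',
        Finset.mem_univ, if_true]
      ring
  have hBc : Continuous fun f : Fin d → ℝ => B p f f := by
    unfold B
    fun_prop
  have hK : IsCompact K := by
    have hcl : IsClosed K :=
      (isClosed_eq (by fun_prop) continuous_const).inter (isClosed_eq hBc continuous_const)
    refine (isCompact_univ_pi fun i => isCompact_Icc (a := -(1 + 1 / p i)) (b := 1 + 1 / p i)).of_isClosed_subset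
      hcl ?_
    rintro f ⟨_, hf⟩ i _
    have h1 : p i * f i * f i ≤ B p f f :=
      Finset.single_le_sum (f := fun i => p i * f i * f i)
        (fun i _ => by nlinarith [mul_nonneg (hp i).le (mul_self_nonneg (f i))]) (Finset.mem_univ i)
    have h2 : f i * f i ≤ 1 / p i := by
      rw [le_div_iff₀ (hp i)]
      linarith
    have h3 : 0 < 1 / p i := one_div_pos.mpr (hp i)
    constructor <;> nlinarith [sq_nonneg (f i - 1), sq_nonneg (f i + 1)]
  have hAc : Continuous fun f : Fin d → ℝ => B p (A *ᵥ f) (A *ᵥ f) :=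
    hBc.comp (by fun_prop)
  obtain ⟨f0, ⟨hf1, hf2⟩, hmax⟩ := hK.exists_isMaxOn hne hAc.continuousOn
  set c := B p (A *ᵥ f0) (A *ᵥ f0) with hc
  have hall : ∀ f : Fin d → ℝ, ∑ i, p i * f i = 0 → B p (A *ᵥ f) (A *ᵥ f) ≤ c * B p f f := by
    intro f hf
    by_cases hf0 : f = 0
    · subst hf0
      simp [B]
    · have hB := B_pos hp hf0
      have h1 : B p (A *ᵥ ((√(B p f f))⁻¹ • f)) (A *ᵥ ((√(B p f f))⁻¹ • f)) ≤ c :=
        hmax (hnorm f hf0 hf)
      rw [mulVec_smul, B_smul, inv_pow, Real.sq_sqrt hB.le, inv_mul_le_iff₀ hB] at h1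
      linarith
  refine ⟨c, B_nonneg hp _, ⟨f0, ?_, hf1, ?_⟩, hall⟩
  · rintro rfl
    simp [B] at hf2
  · set g := c • f0 - dag p A *ᵥ f0 with hg
    have hg1 : ∑ i, p i * g i = 0 := by
      have e1 := B_adj hp A f0 (fun _ => 1)
      rw [h.one] at e1
      have e2 := h.mean f0
      simp only [B, mul_one] at e1
      have e3 : ∑ i, p i * g i = c * ∑ i, p i * f0 i - ∑ i, p i * (dag p A *ᵥ f0) i := by
        rw [Finset.mul_sum, ← Finset.sum_sub_distrib]
        exact Finset.sum_congr rfl fun i _ => by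
          simp only [hg, Pi.sub_apply, Pi.smul_apply, smul_eq_mul]
          ring
      rw [e3, e1, e2, hf1]
      ring
    have hg2 : B p g g = c * B p f0 g - B p (A *ᵥ f0) (A *ᵥ g) := by
      rw [← B_adj hp]
      generalize hx : g = x
      unfold B
      rw [Finset.mul_sum, ← Finset.sum_sub_distrib]
      refine Finset.sum_congr rfl fun i _ => ?_
      have : x i = c * f0 i - (dag p A *ᵥ f0) i := by
        rw [← hx]
        rfl
      nth_rewrite 1 [this]
      ring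
    have hq : ∀ t : ℝ, 0 ≤ 2 * t * B p g g + t ^ 2 * (c * B p g g - B p (A *ᵥ g) (A *ᵥ g)) := by
      intro t
      have h1 := hall (f0 + t • g) (by
        have : ∑ i, p i * (f0 + t • g) i = ∑ i, p i * f0 i + t * ∑ i, p i * g i := by
          rw [Finset.mul_sum, ← Finset.sum_add_distrib]
          exact Finset.sum_congr rfl fun i _ => by
            simp only [Pi.add_apply, Pi.smul_apply, smul_eq_mul]
            ring
        rw [this, hf1, hg1]
        ring)
      rw [mulVec_add, mulVec_smul, B_expand, B_expand, hf2, ← hc] at h1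
      nth_rewrite 1 [hg2]
      nlinarith
    by_contra hne
    have hg0 : g ≠ 0 := fun h0 => hne (sub_eq_zero.mp h0).symm
    have hB := B_pos hp hg0
    have hq0 := hall g hg1
    set x := B p g g
    set y := c * x - B p (A *ᵥ g) (A *ᵥ g) with hy
    have hy0 : 0 ≤ y := by linarith
    have h2 := hq (-(x / (y + 1)))
    have h3 : 0 < x / (y + 1) := by positivity
    have h4 : x / (y + 1) * (y + 1) = x := by field_simp
    nlinarith

lemma lam2_spec (hd : 2 ≤ d) {p : Fin d → ℝ} {A : Matrix (Fin d) (Fin d) ℝ} (h : Chain p A) :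
    0 ≤ lam2 p (dag p A) ∧ lam2 p (dag p A) ≤ 1 ∧
    (∀ f : Fin d → ℝ, ∑ i, p i * f i = 0 → B p (A *ᵥ f) (A *ᵥ f) ≤ lam2 p (dag p A) * B p f f) ∧
    ∀ c', (∀ f : Fin d → ℝ, ∑ i, p i * f i = 0 → B p (A *ᵥ f) (A *ᵥ f) ≤ c' * B p f f) →
      lam2 p (dag p A) ≤ c' := by
  obtain ⟨c, h0, h1, h2⟩ := top_eig hd h
  have e : lam2 p (dag p A) = c := IsGreatest.csSup_eq ⟨h1, eig_le h.pos A c h2⟩
  rw [e]
  exact ⟨h0, eig_le h.pos A 1 (fun f _ => by rw [one_mul]; exact h.contr f) c h1, h2,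
    fun c' hc' => eig_le h.pos A c' hc' c h1⟩

noncomputable def N (p f : Fin d → ℝ) : ℝ := √(B p f f)

lemma N_add {p : Fin d → ℝ} (hp : ∀ i, 0 < p i) (f g : Fin d → ℝ) :
    N p (f + g) ≤ N p f + N p g := by
  unfold N
  have hf := B_nonneg hp f
  have hg := B_nonneg hp g
  have h1 := B_expand p f g 1
  rw [one_smul] at h1
  have hd : discrim (B p g g) (2 * B p f g) (B p f f) ≤ 0 := discrim_le_zero fun t => by
    have := B_nonneg hp (f + t • g)
    rw [B_expand] at this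
    nlinarith
  have h2 : B p f g ≤ √(B p f f) * √(B p g g) := by
    rw [← Real.sqrt_mul hf]
    refine Real.le_sqrt_of_sq_le ?_
    unfold discrim at hd
    nlinarith
  refine Real.sqrt_le_iff.mpr ⟨by positivity, ?_⟩
  nlinarith [Real.sq_sqrt hf, Real.sq_sqrt hg]

lemma N_smul (p f : Fin d → ℝ) {c : ℝ} (hc : 0 ≤ c) : N p (c • f) = c * N p f := by
  unfold N
  rw [B_smul, Real.sqrt_mul (sq_nonneg c), Real.sqrt_sq hc]

lemma main (hd : 2 ≤ d) {p : Fin d → ℝ} {M : Matrix (Fin d) (Fin d) ℝ} (h : Chain p M) {α : ℝ}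
    (h0 : 0 < α) (h1 : α < 1) (k n : ℕ) (hn : (2:ℝ) ^ k * ((1 + α) / 2) ^ n ≤ 1 / 2) :
    (1 - lam2 p (dag p (M ^ k))) / 4 ≤
      1 - lam2 p (dag p ((α • (1 : Matrix (Fin d) (Fin d) ℝ) + (1 - α) • M) ^ n)) := by
  set L := α • (1 : Matrix (Fin d) (Fin d) ℝ) + (1 - α) • M with hL
  obtain ⟨a0, a1, a2, _⟩ := lam2_spec hd (h.pow k)
  obtain ⟨_, _, _, b3⟩ := lam2_spec hd ((h.lazy h0 h1).pow n)
  set c := lam2 p (dag p (M ^ k))
  set r := √c with hr
  have r0 : 0 ≤ r := Real.sqrt_nonneg _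
  have r2 : r ^ 2 = c := Real.sq_sqrt a0
  have r1 : r ≤ 1 := by nlinarith
  have key : ∀ f : Fin d → ℝ, ∑ i, p i * f i = 0 → ∀ m j : ℕ,
      N p ((L ^ m * M ^ j) *ᵥ f) ≤
        (r + (1 - r) * (2 ^ k * (1 / 2) ^ j * ((1 + α) / 2) ^ m)) * N p f := by
    intro f hf m
    have hN : 0 ≤ N p f := Real.sqrt_nonneg _
    induction m with
    | zero =>
      intro j
      rw [pow_zero, one_mul, pow_zero, mul_one]
      rcases le_total j k with hj | hj
      · have e1 : N p (M ^ j *ᵥ f) ≤ N p f := Real.sqrt_le_sqrt ((h.pow j).contr f)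
        have e2 : (1:ℝ) ≤ 2 ^ k * (1 / 2) ^ j := by
          rw [one_div, inv_pow, ← div_eq_mul_inv, le_div_iff₀ (by positivity), one_mul]
          exact pow_le_pow_right₀ (by norm_num) hj
        nlinarith [mul_nonneg (mul_nonneg (sub_nonneg.mpr r1) (sub_nonneg.mpr e2)) hN]
      · obtain ⟨i, rfl⟩ := Nat.exists_eq_add_of_le' hj
        have e1 : N p (M ^ (i + k) *ᵥ f) ≤ r * N p f := by
          rw [pow_add, ← mulVec_mulVec, hr]
          unfold N
          rw [← Real.sqrt_mul a0]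
          exact Real.sqrt_le_sqrt (((h.pow i).contr _).trans (a2 f hf))
        have e2 : (0:ℝ) ≤ 2 ^ k * (1 / 2) ^ (i + k) := by positivity
        nlinarith [mul_nonneg (mul_nonneg (sub_nonneg.mpr r1) e2) hN]
    | succ m ih =>
      intro j
      have e : L ^ (m + 1) * M ^ j = α • (L ^ m * M ^ j) + (1 - α) • (L ^ m * M ^ (j + 1)) := by
        rw [pow_succ, mul_assoc]
        nth_rewrite 2 [hL]
        rw [add_mul, smul_mul_assoc, smul_mul_assoc, one_mul, ← pow_succ', mul_add,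
          mul_smul_comm, mul_smul_comm]
      rw [e, add_mulVec, smul_mulVec, smul_mulVec]
      refine (N_add h.pos _ _).trans ?_
      rw [N_smul _ _ h0.le, N_smul _ _ (by linarith)]
      have i1 := mul_le_mul_of_nonneg_left (ih j) h0.le
      have i2 := mul_le_mul_of_nonneg_left (ih (j + 1)) (by linarith : 0 ≤ 1 - α)
      refine (add_le_add i1 i2).trans (le_of_eq ?_)
      rw [pow_succ, pow_succ]
      ring
  have hb : lam2 p (dag p (L ^ n)) ≤ (1 + r) / 2 := by
    refine b3 _ fun f hf => ?_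
    have k1 := key f hf n 0
    rw [pow_zero, mul_one, pow_zero, mul_one] at k1
    have hN : 0 ≤ N p f := Real.sqrt_nonneg _
    have k2 : N p (L ^ n *ᵥ f) ≤ (1 + r) / 2 * N p f := by
      refine k1.trans (mul_le_mul_of_nonneg_right ?_ hN)
      nlinarith [mul_le_mul_of_nonneg_left hn (sub_nonneg.mpr r1)]
    have k3 : N p (L ^ n *ᵥ f) ^ 2 = B p (L ^ n *ᵥ f) (L ^ n *ᵥ f) :=
      Real.sq_sqrt (B_nonneg h.pos _)
    have k4 : N p f ^ 2 = B p f f := Real.sq_sqrt (B_nonneg h.pos _)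
    have k5 : 0 ≤ N p (L ^ n *ᵥ f) := Real.sqrt_nonneg _
    have k6 := pow_le_pow_left₀ k5 k2 2
    rw [← k3, ← k4]
    refine k6.trans ?_
    rw [mul_pow]
    exact mul_le_mul_of_nonneg_right (by nlinarith) (sq_nonneg _)
  nlinarith

theorem result {d : ℕ} (hd : 2 ≤ d) (p : Fin d → ℝ) (M : Matrix (Fin d) (Fin d) ℝ)
    (h : Chain p M) (α : ℝ) (h0 : 0 < α) (h1 : α < 1) :
    (1 - α) / 20 * gps p M ≤ gps p (α • (1 : Matrix (Fin d) (Fin d) ℝ) + (1 - α) • M) := by
  set L := α • (1 : Matrix (Fin d) (Fin d) ℝ) + (1 - α) • M with hL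
  have hβ : 0 < 1 - α := by linarith
  have hbd : BddAbove (Set.range fun k : ℕ =>
      (1 - lam2 p (dag p (L ^ (k + 1)))) / ((k + 1 : ℕ) : ℝ)) := by
    refine ⟨1, ?_⟩
    rintro _ ⟨k, rfl⟩
    obtain ⟨a0, _⟩ := lam2_spec hd ((h.lazy h0 h1).pow (k + 1))
    beta_reduce
    rw [div_le_one (by positivity)]
    push_cast
    have : (0:ℝ) ≤ k := by positivity
    linarith
  rw [mul_comm, ← le_div_iff₀ (by positivity)]
  refine ciSup_le fun k => ?_
  rw [le_div_iff₀ (by positivity)]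
  set K : ℕ := k + 1 with hK
  have hK1 : (1:ℝ) ≤ K := by
    rw [hK]
    push_cast
    have : (0:ℝ) ≤ k := by positivity
    linarith
  set n : ℕ := ⌊4 * (K:ℝ) / (1 - α)⌋₊ with hn
  have n1 : 4 * (K:ℝ) / (1 - α) < n + 1 := Nat.lt_floor_add_one _
  have n2 : (n:ℝ) ≤ 4 * (K:ℝ) / (1 - α) := Nat.floor_le (by positivity)
  rw [div_lt_iff₀ hβ] at n1
  rw [le_div_iff₀ hβ] at n2
  have hpow : (2:ℝ) ^ K * ((1 + α) / 2) ^ (n + 1) ≤ 1 / 2 := by
    have e1 : (1 + α) / 2 ≤ Real.exp (-((1 - α) / 2)) := by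
      have := Real.add_one_le_exp (-((1 - α) / 2))
      linarith
    have e2 : ((1 + α) / 2) ^ (n + 1) ≤ Real.exp (-((1 - α) / 2)) ^ (n + 1) :=
      pow_le_pow_left₀ (by linarith) e1 _
    have e3 : (2:ℝ) ≤ Real.exp 1 := by
      have := Real.add_one_le_exp 1
      linarith
    have e4 : (2:ℝ) ^ K ≤ Real.exp 1 ^ K := pow_le_pow_left₀ (by norm_num) e3 _
    rw [← Real.exp_nat_mul] at e2 e4
    have e5 : Real.exp (K * 1) * Real.exp (((n + 1 : ℕ) : ℝ) * -((1 - α) / 2)) ≤ Real.exp (-1) := by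
      rw [← Real.exp_add]
      apply Real.exp_le_exp.mpr
      push_cast
      nlinarith
    have e6 : Real.exp (-1) ≤ 1 / 2 := by
      rw [Real.exp_neg, one_div]
      exact inv_anti₀ (by norm_num) e3
    exact (mul_le_mul e4 e2 (by positivity) (by positivity)).trans (e5.trans e6)
  have hm := main hd h h0 h1 K (n + 1) hpow
  obtain ⟨_, a1, _⟩ := lam2_spec hd (h.pow K)
  refine le_trans ?_ (le_ciSup hbd n)
  rw [← hL] at hm
  set x := 1 - lam2 p (dag p (M ^ K))
  have hx : 0 ≤ x := sub_nonneg.mpr a1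
  rw [le_div_iff₀ (by positivity)]
  refine le_trans ?_ hm
  have e : x / K * ((1 - α) / 20) * ((n + 1 : ℕ) : ℝ)
      = x / 4 * ((((n:ℝ) + 1) * (1 - α)) / (5 * K)) := by
    push_cast
    field_simp
    ring
  rw [e]
  refine mul_le_of_le_one_right (by positivity) ?_
  rw [div_le_one (by positivity)]
  nlinarith

end Pool.Agent.Results.MP_67c61c_pr.Lazy
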